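import Mathlib
import Pool.Agent.Q81.Lqr2

/-!
# Uniform bound on the decay rate of the regulator for skew-Hermitian dynamics
-/

namespace Pool.Agent.Results.MP_25d917_an.UniformDecayBound

open scoped Matrix ComplexOrder

/-- `-max {Re λ : λ an eigenvalue of M}`. -/
noncomputable def decayRate {n : ℕ} (M : Matrix (Fin n) (Fin n) ℂ) : ℝ :=
  -sSup (Complex.re '' spectrum ℂ M)

/-- For all `1 ≤ m < n`, all skew-Hermitian `A`, all `B` and all positive definite solutions `X`
of the Riccati equation `A* X + X A - X B B* X + I = 0`, the decay rate of the closed loop matrix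
`A - B B* X` is at most `(6 n - 3/2) Δ(A)`, where `Δ(A)` is the diameter of the spectrum of `A`. -/
theorem result : ∀ n m : ℕ, 1 ≤ m → m < n → ∀ A : Matrix (Fin n) (Fin n) ℂ, Aᴴ = -A →
    ∀ (B : Matrix (Fin n) (Fin m) ℂ) (X : Matrix (Fin n) (Fin n) ℂ), X.PosDef →
      Aᴴ * X + X * A - X * B * Bᴴ * X + 1 = 0 →
      decayRate (A - B * Bᴴ * X) ≤ (6 * n - 3 / 2) * Metric.diam (spectrum ℂ A) :=
  fun _ _ _ hmn _ hA B X hX hric => Q81.Lqr.decay_le hmn hA B X hX hric

end Pool.Agent.Results.MP_25d917_an.UniformDecayBound
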